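import Pool.Agent.W593.ZT.Stm

/-! Project ZT: the exceptional case `m = 6`. -/

open scoped Classical

set_option autoImplicit false

namespace Pool.Agent.W381.ZT

open Pool.Agent.W593.ZT

/-- two different colours -/
theorem card_ne_one {V G : Type} (c : V → V → G) (H : Finset V) (z x y : V) (hx : x ∈ H)
    (hy : y ∈ H) (h : c z x ≠ c z y) : (Cs c H z).card ≠ 1 := by
  intro h1
  obtain ⟨a, ha⟩ := Finset.card_eq_one.mp h1
  have e1 : c z x ∈ Cs c H z := Finset.mem_image_of_mem _ hx
  have e2 : c z y ∈ Cs c H z := Finset.mem_image_of_mem _ hy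
  rw [ha, Finset.mem_singleton] at e1 e2
  exact h (e1.trans e2.symm)

theorem b6 (hM : S_MONO) : S_B6 := by
  intro V G _ _ _ c hc _ T hT hn1 _ hG
  have hV : Fintype.card V = 7 := by rw [hc.card, hG]
  -- the vertex `ρ`
  have hne : ((Finset.univ \ T).filter (fun z => (Cs c T z).card = 1)).Nonempty := by
    rw [← Finset.card_pos]
    have : ((Finset.univ \ T).filter (fun z => (Cs c T z).card = 1)).card = 2 := hn1
    omega
  obtain ⟨ρ, hρ⟩ := hne
  rw [Finset.mem_filter, Finset.mem_sdiff] at hρ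
  obtain ⟨⟨-, hρT⟩, hρ1⟩ := hρ
  obtain ⟨e, he⟩ := Finset.card_eq_one.mp hρ1
  have hTe : ∀ t ∈ T, c ρ t = e := by
    intro t ht
    have : c ρ t ∈ Cs c T ρ := Finset.mem_image_of_mem _ ht
    rw [he, Finset.mem_singleton] at this
    exact this
  obtain ⟨p', hp1, hp2, hp3⟩ := hM V G c hc ρ e
  have hp'T : p' ∉ T := fun h => hp2 (hTe p' h)
  let W : Finset V := Finset.univ \ insert ρ T
  have hW : W.card = 3 := by
    have h1 : (insert ρ T).card = 4 := by rw [Finset.card_insert_of_notMem hρT, hT]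
    have h2 := Finset.card_sdiff_add_card_eq_card (Finset.subset_univ (insert ρ T))
    rw [h1, Finset.card_univ, hV] at h2
    show (Finset.univ \ insert ρ T).card = 3
    omega
  have hp'W : p' ∈ W := by
    rw [Finset.mem_sdiff, Finset.mem_insert, not_or]
    exact ⟨Finset.mem_univ _, hp1, hp'T⟩
  have hW1 : (W.erase p').card = 2 := by rw [Finset.card_erase_of_mem hp'W, hW]
  obtain ⟨v, hv⟩ : (W.erase p').Nonempty := by
    rw [← Finset.card_pos]; omega
  have hW2 : ((W.erase p').erase v).card = 1 := by rw [Finset.card_erase_of_mem hv, hW1]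
  have hvρ : v ≠ ρ := by
    intro h
    have := Finset.mem_of_mem_erase hv
    rw [Finset.mem_sdiff, Finset.mem_insert, not_or] at this
    exact this.2.1 h
  obtain ⟨p'', hq1, hq2, hq3⟩ := hM V G c hc ρ (c ρ v)
  -- the set
  obtain ⟨T', hsub, -, hT'⟩ := Finset.exists_subsuperset_card_eq
    (Finset.subset_univ ({ρ, p', p''} : Finset V)) (n := 3) (Finset.card_le_three)
    (by rw [Finset.card_univ, hV]; norm_num)
  have m1 : ρ ∈ T' := hsub (by simp)
  have m2 : p' ∈ T' := hsub (by simp)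
  have m3 : p'' ∈ T' := hsub (by simp)
  refine ⟨T', hT', ?_⟩
  unfold n1
  refine le_trans (Finset.card_le_card (t := (W.erase p').erase v) ?_) hW2.le
  intro z hz
  rw [Finset.mem_filter, Finset.mem_sdiff] at hz
  obtain ⟨⟨-, hzT'⟩, hz1⟩ := hz
  rw [Finset.mem_erase, Finset.mem_erase]
  refine ⟨?_, ?_, ?_⟩
  · rintro rfl
    refine card_ne_one c T' _ ρ p'' m1 m3 ?_ hz1
    rw [hc.sym]
    exact fun h => hq3 _ hvρ rfl h.symm
  · rintro rfl
    exact hzT' m2
  · rw [Finset.mem_sdiff, Finset.mem_insert, not_or]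
    refine ⟨Finset.mem_univ _, ?_, ?_⟩
    · rintro rfl
      exact hzT' m1
    · intro hzT
      have hzρ : z ≠ ρ := by
        rintro rfl
        exact hρT hzT
      refine card_ne_one c T' z ρ p' m1 m2 ?_ hz1
      rw [hc.sym, hTe z hzT]
      exact fun h => hp3 z hzρ (hTe z hzT) h.symm

end Pool.Agent.W381.ZT
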