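import Pool.Agent.W593.ZT.Stm

/-! Project ZT: a cover stays a cover when leaves are added. -/

open scoped Classical

set_option autoImplicit false

namespace Pool.Agent.W381.ZT

open Pool.Agent.W593.ZT

theorem mc : S_MC := by
  intro V G _ S0 S1 Z Z' A hsub _ hcov r0 hr0 s hs
  have hsplit : ∀ f : V → G, ∑ z ∈ Z, f z = ∑ z ∈ Z \ Z', f z + ∑ z ∈ Z', f z := fun f =>
    (Finset.sum_sdiff hsub).symm
  obtain ⟨_, ⟨ρ, hρ, rfl⟩, h1⟩ := hcov r0 (fun z hz => hr0 z (hsub hz))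
    (s - ∑ z ∈ Z \ Z', r0 z) (by
      rw [hsplit] at hs
      rw [sub_sub]
      exact hs)
  refine ⟨_, ⟨fun z => if z ∈ Z' then ρ z else r0 z, ?_, rfl⟩, ?_⟩
  · intro z hz
    by_cases h : z ∈ Z'
    · simp only [h, if_true]
      exact hρ z h
    · simp only [h, if_false]
      exact hr0 z hz
  · rw [hsplit]
    have e1 : ∑ z ∈ Z \ Z', (if z ∈ Z' then ρ z else r0 z) = ∑ z ∈ Z \ Z', r0 z :=
      Finset.sum_congr rfl fun z hz => if_neg (Finset.mem_sdiff.mp hz).2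
    have e2 : ∑ z ∈ Z', (if z ∈ Z' then ρ z else r0 z) = ∑ z ∈ Z', ρ z :=
      Finset.sum_congr rfl fun z hz => if_pos hz
    rw [e1, e2, ← sub_sub]
    exact h1

end Pool.Agent.W381.ZT
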